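import Pool.Agent.W927.BM.Stm

set_option autoImplicit false

/-! # BM-ROUTE: heights and counters of an island (from POT) -/

noncomputable section

namespace Pool.Agent.W503.BM

open Pool.Agent.W927.BM

variable {I : Lens} {k : ℕ} {C : ℕ → Set (ℤ × ℤ)}

lemma u_mono (h : I.OK k C) {s t : ℤ} (hs : I.t0 ≤ s) (hst : s ≤ t) (ht : t ≤ I.t1) :
    I.u s ≤ I.u t ∧ I.u t - t ≤ I.u s - s := by
  obtain ⟨n, rfl⟩ : ∃ n : ℕ, t = s + n := ⟨(t - s).toNat, by omega⟩
  induction n with
  | zero => simp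
  | succ n ih =>
    have e : s + ((n + 1 : ℕ) : ℤ) = s + n + 1 := by push_cast; ring
    rw [e] at ht ⊢
    have h1 := ih (by omega) (by omega)
    rcases h.ustep (s + n) (by omega) (by omega) with h2 | h2
    · rw [h2]; omega
    · rw [h2]; omega

lemma xt_mono (h : I.OK k C) {s t : ℤ} (hs : I.t0 ≤ s) (hst : s ≤ t) (ht : t ≤ I.t1) :
    I.xt s ≤ I.xt t := by
  have := (u_mono h hs hst ht).1
  unfold Lens.xt
  omega

lemma yt_anti (h : I.OK k C) {s t : ℤ} (hs : I.t0 ≤ s) (hst : s ≤ t) (ht : t ≤ I.t1) :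
    I.yt t ≤ I.yt s := by
  have := (u_mono h hs hst ht).2
  unfold Lens.yt
  omega

lemma B_nonneg (h : I.OK k C) {t : ℤ} (h0 : I.t0 < t) (h1 : t < I.t1) : 0 ≤ I.B t := by
  have a1 := (u_mono h (s := I.t0 + 1) (t := t) (by omega) (by omega) (by omega)).1
  have a2 := (u_mono h (s := t) (t := I.t1 - 1) (by omega) (by omega) (by omega)).2
  rw [h.ut0'] at a1
  rw [h.ut1'] at a2
  unfold Lens.B Lens.xt Lens.yt
  apply le_min <;> omega

/-- 128 times the boundary value is at most 3 times the distance to the ends -/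
lemma B_le (h : I.OK k C) {s : ℤ} (h0 : I.t0 < s) (h1 : s < I.t1) :
    128 * I.B s ≤ 3 * (s - I.t0) ∧ 128 * I.B s ≤ 3 * (I.t1 - s) := by
  have a1 := h.us2 I.t0 s le_rfl (by omega) (by omega)
  have a2 := h.us1 s I.t1 (by omega) (by omega) le_rfl
  rw [h.ut0] at a1
  rw [h.ut1] at a2
  have b1 : I.B s ≤ I.xt s := min_le_left _ _
  have b2 : I.B s ≤ I.yt s := min_le_right _ _
  unfold Lens.xt at b1
  unfold Lens.yt at b2
  constructor <;> omega

/-- top-top comparison -/
lemma top_top (h : I.OK k C) {s t : ℤ} (hs0 : I.t0 < s) (hs1 : s < I.t1) (ht0 : I.t0 < t)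
    (ht1 : t < I.t1) :
    ∃ j : Bool, lin j t (I.u t - 1) - lin j s (I.u s - 1) < ((I.B t - I.B s + 1 : ℤ) : ℝ) := by
  rcases le_total t s with hts | hst
  · -- t ≤ s : use `true`
    refine ⟨true, ?_⟩
    have m := u_mono h (s := t) (t := s) (by omega) hts (by omega)
    have a := h.us1 t s (by omega) hts (by omega)
    have key : 35 * (I.u s - I.u t) - 4 > 40 * (I.B s - I.B t - 1) := by
      rcases lt_or_ge 0 (I.B s - I.B t) with hq | hq
      · have y1 : I.B s ≤ I.yt s := min_le_right _ _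
        have y2 := yt_anti h (s := t) (t := s) (by omega) hts (by omega)
        have b1 : I.B t = I.xt t := by
          rcases min_choice (I.xt t) (I.yt t) with e | e
          · exact e
          · exfalso
            have : I.B t = I.yt t := e
            omega
        have b2 : I.B s ≤ I.xt s := min_le_left _ _
        unfold Lens.xt at b1 b2
        omega
      · omega
    have key' : (35 * ((I.u s : ℝ) - I.u t) - 4) > 40 * ((I.B s : ℝ) - I.B t - 1) := by
      exact_mod_cast key
    have a' : (s : ℝ) - t ≤ 4 * ((I.u s : ℝ) - I.u t) + 4 := by exact_mod_cast a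
    unfold lin
    push_cast
    linarith
  · refine ⟨false, ?_⟩
    have m := u_mono h (s := s) (t := t) (by omega) hst (by omega)
    have a := h.us2 s t (by omega) hst (by omega)
    have key : 35 * ((I.u s - s) - (I.u t - t)) - 4 > 40 * (I.B s - I.B t - 1) := by
      rcases lt_or_ge 0 (I.B s - I.B t) with hq | hq
      · have y1 : I.B s ≤ I.xt s := min_le_left _ _
        have y2 := xt_mono h (s := s) (t := t) (by omega) hst (by omega)
        have b1 : I.B t = I.yt t := by
          rcases min_choice (I.xt t) (I.yt t) with e | e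
          · exfalso
            have : I.B t = I.xt t := e
            omega
          · exact e
        have b2 : I.B s ≤ I.yt s := min_le_right _ _
        unfold Lens.yt at b1 b2
        omega
      · omega
    have key' : (35 * (((I.u s : ℝ) - s) - ((I.u t : ℝ) - t)) - 4) >
        40 * ((I.B s : ℝ) - I.B t - 1) := by
      exact_mod_cast key
    have a' : 4 * ((I.u t : ℝ) - I.u s) ≤ 3 * ((t : ℝ) - s) + 4 := by exact_mod_cast a
    unfold lin
    push_cast
    linarith

/-- top-bottom comparison -/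
lemma top_bottom (h : I.OK k C) {s t : ℤ} (hs0 : I.t0 < s) (hs1 : s < I.t1) (ht0 : I.t0 < t)
    (ht1 : t < I.t1) (hB : 1 ≤ I.B s) :
    ∃ j : Bool, lin j t (I.d t) - lin j s (I.u s - 1) < ((1 - I.B s : ℤ) : ℝ) := by
  obtain ⟨b1, b2⟩ := B_le h hs0 hs1
  have ub := h.ubase s hs0.le hs1.le
  have db := h.dbase t ht0.le ht1.le
  have bal := h.bal
  obtain ⟨mn, hmn1, hmn2, hmn3⟩ : ∃ mn : ℤ, mn ≤ s - I.t0 ∧ mn ≤ I.t1 - s ∧
      (mn = s - I.t0 ∨ mn = I.t1 - s) := by
    rcases le_total (s - I.t0) (I.t1 - s) with e | e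
    · exact ⟨s - I.t0, le_rfl, e, Or.inl rfl⟩
    · exact ⟨I.t1 - s, e, le_rfl, Or.inr rfl⟩
  have c1 : 128 * I.B s ≤ 3 * mn := by rcases hmn3 with e | e <;> omega
  -- 16 (u s - 1 - d t) - 8 (s - t) ≥ 3 mn - 2 |s - t| - 48
  have key : 3 * mn - 2 * |s - t| - 48 ≤ 16 * (I.u s - 1 - I.d t) - 8 * (s - t) := by
    have e1 := abs_le.1 (show |2 * (I.x1 - I.x0) - (I.t1 - I.t0)| ≤ (I.t1 - I.t0) / 16 by omega)
    obtain ⟨e2, e3⟩ := e1
    have f1 := le_abs_self (s - t)
    have f2 := neg_abs_le (s - t)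
    rcases min_choice (8 * I.x0 + 5 * (s - I.t0)) (8 * I.x1 - 3 * (I.t1 - s)) with g | g <;>
    rcases max_choice (8 * I.x0 + 3 * (t - I.t0)) (8 * I.x1 - 5 * (I.t1 - t)) with g' | g' <;>
    rw [g] at ub <;> rw [g'] at db <;> omega
  have hmn : 43 ≤ mn := by omega
  have keyR : 3 * (mn : ℝ) - 2 * |(s : ℝ) - t| - 48 ≤
      16 * ((I.u s : ℝ) - 1 - I.d t) - 8 * ((s : ℝ) - t) := by exact_mod_cast key
  have c1R : 128 * (I.B s : ℝ) ≤ 3 * mn := by exact_mod_cast c1
  have hmnR : (43 : ℝ) ≤ mn := by exact_mod_cast hmn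
  rcases le_total (t : ℝ) s with e | e
  · refine ⟨true, ?_⟩
    rw [abs_of_nonneg (by linarith)] at keyR
    unfold lin
    push_cast
    linarith
  · refine ⟨false, ?_⟩
    rw [abs_of_nonpos (by linarith)] at keyR
    unfold lin
    push_cast
    linarith

/-! ### heights -/

/-- one branch of the height function -/
def Fz (I : Lens) (Φ : Bool → ℤ → ℤ → ℝ) (s : ℤ) (j : Bool) (t x : ℤ) : ℤ :=
  I.B s + ⌊Φ j t x - Φ j s (I.u s - 1)⌋

/-- the height function, as a natural number -/
def bN (I : Lens) (Φ : Bool → ℤ → ℤ → ℝ) (t x : ℤ) : ℕ :=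
  ((Finset.Ioo I.t0 I.t1).filter (fun s => 1 ≤ I.B s)).sup
    (fun s => (min (Fz I Φ s true t x) (Fz I Φ s false t x)).toNat)

lemma bN_le (Φ : Bool → ℤ → ℤ → ℝ) (c : ℕ) {t x t' x' : ℤ}
    (H : ∀ j, Φ j t x ≤ Φ j t' x' + c) : bN I Φ t x ≤ bN I Φ t' x' + c := by
  unfold bN
  apply Finset.sup_le
  intro s hs
  have h1 : ∀ j, Fz I Φ s j t x ≤ Fz I Φ s j t' x' + c := by
    intro j
    unfold Fz
    have : ⌊Φ j t x - Φ j s (I.u s - 1)⌋ ≤ ⌊Φ j t' x' - Φ j s (I.u s - 1)⌋ + (c : ℤ) := by
      rw [← Int.floor_add_natCast]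
      apply Int.floor_le_floor
      have := H j
      linarith
    linarith
  have h2 := Finset.le_sup (f := fun s => (min (Fz I Φ s true t' x') (Fz I Φ s false t' x')).toNat)
    hs
  have h3 := h1 true
  have h4 := h1 false
  refine le_trans ?_ (Nat.add_le_add_right h2 c)
  omega

lemma far_top (h : I.OK k C) {s : ℤ} (h0 : I.t0 < s) (h1 : s < I.t1) :
    Far C k 0 (s, I.u s - 1) := by
  intro i hi z hz
  have := h.ufar s h0.le h1.le i hi z hz
  unfold dd at this ⊢
  simp only at this ⊢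
  have e : |I.u s - z.2| ≤ |I.u s - 1 - z.2| + 1 := by
    have := abs_add_le (I.u s - 1 - z.2) 1
    have e2 : I.u s - 1 - z.2 + 1 = I.u s - z.2 := by ring
    rw [e2] at this
    simpa using this
  rcases max_choice |s - z.1| |I.u s - z.2| with e3 | e3
  · rw [e3] at this
    exact le_max_of_le_left (by omega)
  · rw [e3] at this
    exact le_max_of_le_right (by omega)

lemma far_bot (h : I.OK k C) {s : ℤ} (h0 : I.t0 < s) (h1 : s < I.t1) :
    Far C k 0 (s, I.d s) := by
  intro i hi z hz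
  have := h.dfar s h0.le h1.le i hi z hz
  omega

lemma bN_up (h : I.OK k C) (Φ : Bool → ℤ → ℤ → ℝ)
    (hΦ : ∀ j t x, Far C k 0 (t, x) → Φ j t x = lin j t x) {t : ℤ} (h0 : I.t0 < t)
    (h1 : t < I.t1) : (bN I Φ t (I.u t - 1) : ℤ) = I.B t := by
  have hB := B_nonneg h h0 h1
  have e1 : bN I Φ t (I.u t - 1) ≤ (I.B t).toNat := by
    unfold bN
    apply Finset.sup_le
    intro s hs
    simp only [Finset.mem_filter, Finset.mem_Ioo] at hs
    obtain ⟨⟨hs0, hs1⟩, hs2⟩ := hs
    obtain ⟨j, hj⟩ := top_top h hs0 hs1 h0 h1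
    have : Fz I Φ s j t (I.u t - 1) ≤ I.B t := by
      unfold Fz
      rw [hΦ j _ _ (far_top h h0 h1), hΦ j _ _ (far_top h hs0 hs1)]
      have := Int.floor_lt.2 hj
      omega
    have : min (Fz I Φ s true t (I.u t - 1)) (Fz I Φ s false t (I.u t - 1)) ≤ I.B t := by
      cases j
      · exact le_trans (min_le_right _ _) this
      · exact le_trans (min_le_left _ _) this
    exact Int.toNat_le_toNat this
  have e2 : (I.B t).toNat ≤ bN I Φ t (I.u t - 1) := by
    rcases lt_or_ge (I.B t) 1 with hlt | hge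
    · have : I.B t = 0 := by omega
      simp [this]
    · unfold bN
      have hm : t ∈ (Finset.Ioo I.t0 I.t1).filter (fun s => 1 ≤ I.B s) := by
        simp only [Finset.mem_filter, Finset.mem_Ioo]
        exact ⟨⟨h0, h1⟩, hge⟩
      refine le_trans ?_ (Finset.le_sup (f := fun s => (min (Fz I Φ s true t (I.u t - 1))
        (Fz I Φ s false t (I.u t - 1))).toNat) hm)
      simp [Fz]
  have := le_antisymm e1 e2
  rw [this]
  exact Int.toNat_of_nonneg hB

lemma bN_low (h : I.OK k C) (Φ : Bool → ℤ → ℤ → ℝ)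
    (hΦ : ∀ j t x, Far C k 0 (t, x) → Φ j t x = lin j t x) {t : ℤ} (h0 : I.t0 < t)
    (h1 : t < I.t1) : bN I Φ t (I.d t) = 0 := by
  apply Nat.eq_zero_of_le_zero
  unfold bN
  apply Finset.sup_le
  intro s hs
  simp only [Finset.mem_filter, Finset.mem_Ioo] at hs
  obtain ⟨⟨hs0, hs1⟩, hs2⟩ := hs
  obtain ⟨j, hj⟩ := top_bottom h hs0 hs1 h0 h1 hs2
  have : Fz I Φ s j t (I.d t) ≤ 0 := by
    unfold Fz
    rw [hΦ j _ _ (far_bot h h0 h1), hΦ j _ _ (far_top h hs0 hs1)]
    have := Int.floor_lt.2 hj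
    omega
  have : min (Fz I Φ s true t (I.d t)) (Fz I Φ s false t (I.d t)) ≤ 0 := by
    cases j
    · exact le_trans (min_le_right _ _) this
    · exact le_trans (min_le_left _ _) this
  omega

/-! ### counter -/

open Classical in
/-- number of steps since the last event -/
def cnt (I : Lens) : ℕ → ℕ
  | 0 => 0
  | n + 1 => if I.Ev (I.t0 + 1 + n) then 0 else cnt I n + 1

lemma cnt_spec (I : Lens) (n : ℕ) :
    cnt I n ≤ n ∧ ∀ i : ℕ, n - cnt I n ≤ i → i < n → ¬ I.Ev (I.t0 + 1 + i) := by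
  induction n with
  | zero => simp [cnt]
  | succ n ih =>
    by_cases hE : I.Ev (I.t0 + 1 + n)
    · have : cnt I (n + 1) = 0 := by simp [cnt, hE]
      rw [this]
      refine ⟨by omega, fun i h1 h2 => by omega⟩
    · have : cnt I (n + 1) = cnt I n + 1 := by simp [cnt, hE]
      rw [this]
      refine ⟨by omega, fun i h1 h2 => ?_⟩
      rcases Nat.lt_or_ge i n with h3 | h3
      · exact ih.2 i (by omega) h3
      · have : i = n := by omega
        rw [this]; exact hE

/-- a monotone integer function with a strict increase somewhere has an increasing step -/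
lemma exists_step (f : ℤ → ℤ) (s : ℤ) (n : ℕ) (h : f s < f (s + n)) :
    ∃ t, s ≤ t ∧ t < s + n ∧ f t < f (t + 1) := by
  induction n with
  | zero => simp at h
  | succ n ih =>
    have e : s + ((n + 1 : ℕ) : ℤ) = s + n + 1 := by push_cast; ring
    rw [e] at h
    by_cases h1 : f s < f (s + n)
    · obtain ⟨t, a, b, c⟩ := ih h1
      exact ⟨t, a, by push_cast; omega, c⟩
    · exact ⟨s + n, by omega, by push_cast; omega, by omega⟩

lemma exists_event (h : I.OK k C) (s : ℤ) (h0 : I.t0 < s) (h1 : s + 279 < I.t1) :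
    ∃ t, s ≤ t ∧ t ≤ s + 279 ∧ I.Ev t := by
  by_cases hp : I.yt (s + 139) ≤ I.xt (s + 139)
  · -- second case
    have a := h.us2 (s + 139) (s + 279) (by omega) (by omega) (by omega)
    have : -I.yt (s + 139) < -I.yt (s + 139 + (140 : ℕ)) := by
      unfold Lens.yt
      have e : s + 139 + ((140 : ℕ) : ℤ) = s + 279 := by push_cast; ring
      rw [e]
      omega
    obtain ⟨t, t1, t2, t3⟩ := exists_step (fun t => -I.yt t) (s + 139) 140 this
    push_cast at t2
    have x1 := xt_mono h (s := s + 139) (t := t) (by omega) t1 (by omega)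
    have y1 := yt_anti h (s := s + 139) (t := t) (by omega) t1 (by omega)
    have hu : I.u (t + 1) = I.u t := by
      rcases h.ustep t (by omega) (by omega) with e | e
      · exact e
      · exfalso
        unfold Lens.yt at t3
        rw [e] at t3
        omega
    have x2 : I.xt (t + 1) = I.xt t := by unfold Lens.xt; rw [hu]
    have y2 : I.yt (t + 1) = I.yt t - 1 := by
      unfold Lens.yt at t3 ⊢
      rw [hu] at t3 ⊢
      omega
    refine ⟨t + 1, by omega, by omega, Or.inl ⟨?_, ?_⟩⟩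
    · rw [add_sub_cancel_right, hu]
    · rw [add_sub_cancel_right]
      unfold Lens.B
      rw [x2, y2]
      omega
  · push Not at hp
    have a := h.us1 s (s + 139) (by omega) (by omega) (by omega)
    have : I.xt s < I.xt (s + (139 : ℕ)) := by
      unfold Lens.xt
      push_cast
      omega
    obtain ⟨t, t1, t2, t3⟩ := exists_step I.xt s 139 this
    push_cast at t2
    have x1 := xt_mono h (s := t) (t := s + 139) (by omega) t2.le (by omega)
    have y1 := yt_anti h (s := t) (t := s + 139) (by omega) t2.le (by omega)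
    have hu : I.u (t + 1) = I.u t + 1 := by
      rcases h.ustep t (by omega) (by omega) with e | e
      · exfalso
        unfold Lens.xt at t3
        rw [e] at t3
        omega
      · exact e
    have x2 : I.xt (t + 1) = I.xt t + 1 := by
      unfold Lens.xt at t3 ⊢
      rw [hu] at t3 ⊢
      omega
    have y2 : I.yt (t + 1) = I.yt t := by
      unfold Lens.yt
      rw [hu]
      congr 1
      ring
    refine ⟨t, by omega, by omega, Or.inr ⟨hu, ?_⟩⟩
    unfold Lens.B
    rw [x2, y2]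
    omega

lemma cnt_lt (h : I.OK k C) (n : ℕ) (hn : I.t0 + 1 + n < I.t1) : cnt I n < 512 := by
  obtain ⟨h1, h2⟩ := cnt_spec I n
  by_contra hc
  push Not at hc
  obtain ⟨t, t1, t2, t3⟩ := exists_event h (I.t0 + 1 + n - 280) (by omega) (by omega)
  have := h2 (t - I.t0 - 1).toNat (by omega) (by omega)
  apply this
  have e : I.t0 + 1 + (((t - I.t0 - 1).toNat : ℕ) : ℤ) = t := by omega
  rw [e]
  exact t3

theorem main : Pool.Agent.W927.BM.S_POT → Pool.Agent.W927.BM.S_ROUTE := by
  intro hpot k C hsep I hI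
  choose Φ hΦ1 hΦ2 hΦ3 hΦ4 hΦ5 using hpot k C hsep
  refine ⟨fun t x => (bN I Φ t x : ℤ),
    fun t => if I.t0 < t ∧ t < I.t1 then cnt I (t - I.t0 - 1).toNat else 0, ?_⟩
  have le0 : ∀ {t x t' x' : ℤ}, (∀ j, Φ j t x ≤ Φ j t' x') → bN I Φ t x ≤ bN I Φ t' x' := by
    intro t x t' x' H
    have := bN_le (I := I) Φ 0 (t := t) (x := x) (t' := t') (x' := x')
      (fun j => by simpa using H j)
    simpa using this
  have le1 : ∀ {t x t' x' : ℤ}, (∀ j, Φ j t x ≤ Φ j t' x' + 1) →
      (bN I Φ t x : ℤ) ≤ bN I Φ t' x' + 1 := by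
    intro t x t' x' H
    have := bN_le (I := I) Φ 1 (t := t) (x := x) (t' := t') (x' := x')
      (fun j => by simpa using H j)
    exact_mod_cast this
  refine
    { e_lo := fun t x => by exact_mod_cast le0 (fun j => (hΦ1 j t x).1)
      e_hi := fun t x => le1 (fun j => (hΦ1 j t x).2)
      n_lo := fun t x => by exact_mod_cast le0 (fun j => (hΦ2 j t x).1)
      n_hi := fun t x => le1 (fun j => (hΦ2 j t x).2)
      ne_hi := fun t x => le1 (fun j => hΦ3 j t x)
      const := ?_
      low := fun t h0 h1 => by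
        have := bN_low hI Φ (fun j t x => hΦ4 j t x) h0 h1
        exact_mod_cast this
      up := fun t h0 h1 => bN_up hI Φ (fun j t x => hΦ4 j t x) h0 h1
      qlt := ?_
      qev := ?_
      qnev := ?_ }
  · intro i hi z hz _ v w hv hw fv fw
    have e : ∀ j, Φ j v.1 v.2 = Φ j w.1 w.2 := fun j => hΦ5 j i hi z hz v w hv hw fv fw
    have := le_antisymm (le0 (fun j => (e j).le)) (le0 (fun j => (e j).ge))
    exact_mod_cast this
  · intro t
    split_ifs with ht
    · apply cnt_lt hI
      omega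
    · norm_num
  · intro t h0 h1 hE
    have e : (t + 1 - I.t0 - 1).toNat = (t - I.t0 - 1).toNat + 1 := by omega
    have e2 : I.t0 + 1 + (((t - I.t0 - 1).toNat : ℕ) : ℤ) = t := by omega
    rw [if_pos (by omega), e]
    unfold cnt
    rw [e2, if_pos hE]
  · intro t h0 h1 hE
    have e : (t + 1 - I.t0 - 1).toNat = (t - I.t0 - 1).toNat + 1 := by omega
    have e2 : I.t0 + 1 + (((t - I.t0 - 1).toNat : ℕ) : ℤ) = t := by omega
    rw [if_pos (by omega), if_pos (by omega), e]
    conv_lhs => unfold cnt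
    rw [e2, if_neg hE]

end Pool.Agent.W503.BM

end
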